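import Pool.Agent.N488.PY.GloA
import Pool.Agent.N783.PQ.Final

/-!
# Part GLO: no rational points

Project PY (helper922), part GLO.
-/

set_option autoImplicit false

namespace Pool.Agent.N488.PY

open Pool.Agent.N922.PY

theorem glo (h1 : S_LOC) (h2 : S_INJ) : S_GLO :=
  glo_of Pool.Agent.N783.PQ.sha Pool.Agent.N776.PQ.rat h1 h2

end Pool.Agent.N488.PY
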