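import Pool.Agent.N922.PY.Stm
import Pool.Agent.N896.PQ.Sh7

/-!
# Part GLO: no rational points, from the divisibility of the group of the rational points

Project PY (helper922), part GLO.
-/

set_option autoImplicit false
set_option linter.all false

open Polynomial

namespace Pool.Agent.N488.PY

open Pool.Agent.Y723.HJ (CR OddM HF clmap mapR CC mi bar nm cl clmap_mi)
open Pool.Agent.N783.PQ
open Pool.Agent.N922.PY

lemma iter {G : Type} [AddCommGroup G] (h : ∀ P : G, ∃ Q : G, 2 • Q = P) (k : ℕ) :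
    ∀ P : G, ∃ Q : G, (2 ^ k) • Q = P := by
  induction k with
  | zero => intro P; exact ⟨P, by simp⟩
  | succ k ih =>
    intro P
    obtain ⟨Q, hQ⟩ := ih P
    obtain ⟨R, hR⟩ := h Q
    exact ⟨R, by rw [pow_succ, mul_nsmul', hR, hQ]⟩

/-- The reduction to the group over `ℚ`. -/
lemma glo_key (hs : Pool.Agent.N783.PQ.S_SHA) (hr : S_RAT) (h2 : S_INJ) (a : Fin (2 * 2) → ℤ)
    (hirr : Irreducible (fol a ℚ)) (hz : SelZero (pol a)) [HF (fol a ℚ)] (x y : ℚ) (k : ℕ) :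
    ∃ d : ClassGroup (CR (fol a ℚ)), d ^ 2 ^ k = cl (mi (fol a ℚ) (X - C x) (C y)) := by
  haveI hQB : CharZero QB := Pool.Agent.N896.PQ.charQB
  haveI : HF (fol a QB) := Pool.Agent.N896.PQ.hf_of hirr QB
  have hdiv := (hs 2 a hirr hz).2.2
  have hx0 : (X - C x : ℚ[X]) ≠ 0 := X_sub_C_ne_zero x
  have e0 : (fol a ℚ).map (algebraMap ℚ QB) = fol a QB := fol_map a _
  set P0 : ClassGroup (CR (fol a ℚ)) := cl (mi (fol a ℚ) (X - C x) (C y)) with hP0
  set P : ClassGroup (CR (fol a QB)) := clmap (algebraMap ℚ QB) e0 P0 with hP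
  have hPm : P = cl (mi (fol a QB) ((X - C x : ℚ[X]).map (algebraMap ℚ QB))
      ((C y : ℚ[X]).map (algebraMap ℚ QB))) := by
    rw [hP, hP0, clmap_mi _ _ hx0]
  have hfix : ∀ σ : GQ, act a σ (Additive.ofMul P) = Additive.ofMul P := by
    intro σ
    have h1 : act a σ (Additive.ofMul P) =
        Additive.ofMul (clmap (σ : QB →+* QB) (fol_map a (σ : QB →+* QB)) P) := rfl
    rw [h1, hPm, clmap_mi _ _ ((X_sub_C_ne_zero x : (X - C x : ℚ[X]) ≠ 0) |>
      (Polynomial.map_ne_zero_iff (algebraMap ℚ QB).injective).2)]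
    congr 3
    · rw [Polynomial.map_map]
      congr 1
      exact RingHom.ext fun q => σ.commutes q
    · rw [Polynomial.map_map]
      congr 1
      exact RingHom.ext fun q => σ.commutes q
  obtain ⟨Q, hQ⟩ := iter hdiv k (⟨Additive.ofMul P, hfix⟩ : JacQ a)
  have hQ1 : ((2 ^ k) • (Q : Jac a QB)) = Additive.ofMul P := by
    have := congrArg (Subtype.val) hQ
    simpa using this
  set R : ClassGroup (CR (fol a QB)) := (Q : Jac a QB).toMul with hR
  have hR1 : R ^ 2 ^ k = P := by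
    have := congrArg Additive.toMul hQ1
    simpa [hR] using this
  have hRfix : ∀ σ : GQ, clmap (σ : QB →+* QB) (fol_map a (σ : QB →+* QB)) R = R := by
    intro σ
    have h1 := Q.2 σ
    exact congrArg Additive.toMul h1
  obtain ⟨u, v, hu, hcop, hdvd, hcl⟩ := hr ℚ (fol a ℚ) (fol a QB) e0
    (fun τ => fol_map a (τ : QB →+* QB)) R hRfix
  refine ⟨cl (mi (fol a ℚ) u v), ?_⟩
  apply h2 ℚ QB (algebraMap ℚ QB) (fol a ℚ) (fol a QB) e0 2 (fol_natDegree a ℚ)
  have hcl' : cl (mi (fol a QB) (u.map (algebraMap ℚ QB)) (v.map (algebraMap ℚ QB))) = R := by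
    rw [← hcl]
    congr 3 <;> exact Subsingleton.elim _ _
  rw [map_pow, clmap_mi _ _ hu.ne_zero, hcl', hR1]

theorem glo_of (hs : Pool.Agent.N783.PQ.S_SHA) (hr : S_RAT) (h1 : S_LOC) (h2 : S_INJ) :
    S_GLO := by
  intro a hirr hz hcg x y hxy
  haveI : HF (fol a ℚ) := Pool.Agent.N896.PQ.hf_of hirr ℚ
  set f : ℤ_[2][X] := (pol a).map (Int.castRingHom ℤ_[2]) with hf
  have hfK : fK f = fol a ℚ_[2] := by
    show ((pol a).map (Int.castRingHom ℤ_[2])).map (algebraMap ℤ_[2] ℚ_[2]) = _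
    rw [Polynomial.map_map]
    congr 1
  haveI : HF (fK f) := by
    rw [hfK]
    exact Pool.Agent.N896.PQ.hf_of hirr _
  have hgood : Good f := by
    refine ⟨(pol_monic a).map _, ?_, ?_⟩
    · rw [hf, (pol_monic a).natDegree_map, pol_natDegree]
    · intro j
      obtain ⟨c, hc⟩ := hcg j
      refine ⟨(c : ℤ_[2]), ?_⟩
      rw [hf, coeff_map]
      have := congrArg (fun t : ℤ => (t : ℤ_[2])) hc
      push_cast at this
      simpa using this
  have hmap : (fol a ℚ).map (algebraMap ℚ ℚ_[2]) = fK f := by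
    rw [hfK]; exact fol_map a _
  have hpt : ((y : ℚ_[2])) ^ 2 = (fK f).eval (x : ℚ_[2]) := by
    rw [← hmap, eval_map]
    have h3 := congrArg (algebraMap ℚ ℚ_[2]) hxy
    rw [map_pow] at h3
    have h4 : (algebraMap ℚ ℚ_[2]) ((fol a ℚ).eval x) =
        (fol a ℚ).eval₂ (algebraMap ℚ ℚ_[2]) ((algebraMap ℚ ℚ_[2]) x) :=
      (Polynomial.eval₂_at_apply (algebraMap ℚ ℚ_[2]) x).symm
    rw [h4] at h3
    simpa using h3
  obtain ⟨k, hk⟩ := h1 f hgood (x : ℚ_[2]) (y : ℚ_[2]) hpt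
  obtain ⟨d, hd⟩ := glo_key hs hr h2 a hirr hz x y k
  refine hk (clmap (algebraMap ℚ ℚ_[2]) hmap d) ?_
  rw [← map_pow, hd, clmap_mi _ _ (X_sub_C_ne_zero x)]
  simp only [Polynomial.map_sub, Polynomial.map_X, Polynomial.map_C, eq_ratCast]

end Pool.Agent.N488.PY
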